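import Pool.Agent.H55.CG.Defs

/-!
# The order of the gap of the slope of the copolymer critical curve: targets (helper55)

Every `T_X` is a proposition to be proved in a module of its own. See `Defs.lean`.
`W`, `V`, `RR`, `wt`, `H`, `kk`, `tailK`, `uu`, `UU`, `ch`, `XX` are those of `Pool.Agent.H95.Cop`,
`iid`, `shift`, `DepLt` those of `Pool.Agent.H95`.
-/

set_option autoImplicit false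

open MeasureTheory ProbabilityTheory Filter Topology
open Pool.Agent.H95 Pool.Agent.H95.Cop

namespace Pool.Agent.H55.CG

/-! ## A. The pinned partition function -/

/-- PZS: recursion, sign and shift. -/
def T_PZS : Prop := ∀ (K : PMF ℕ) (x : ℕ → ℝ) (a d t : ℕ),
  pz K x 0 a = 1 ∧
  pz K x (d + 1) a = ∑ j ∈ Finset.range (d + 1),
    kk K (j + 1) * wt x a (a + (j + 1)) * pz K x (d - j) (a + (j + 1)) ∧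
  0 ≤ pz K x d a ∧ pz K (shift t x) d a = pz K x d (a + t)

/-- PZU: the lower bound by the renewal mass. -/
def T_PZU : Prop := ∀ (K : PMF ℕ) (x : ℕ → ℝ) (d a : ℕ),
  uu (kk K) d * Real.exp (H x a (a + d) / 2) ≤ pz K x d a

/-- PZM: measurability and dependence. -/
def T_PZM : Prop := ∀ (K : PMF ℕ) (d a : ℕ), Measurable (fun x : ℕ → ℝ => pz K x d a) ∧
  DepLt (a + d) (fun x : ℕ → ℝ => pz K x d a)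

/-- VSU: last renewal point before `L`, first one after `L`. -/
def T_VSU : Prop := ∀ (K : PMF ℕ), K 0 = 0 → ∀ (N : ℕ) (x : ℕ → ℝ) (L : ℕ), L ≤ N →
  ∀ B : Finset ℕ, B ⊆ Finset.Ico L N → ∀ c ≤ L,
  ∑ a ∈ Finset.Ico c L, pz K x (a - c) c * RR K N x B a ≤ V K N x c

/-- VTL: last renewal point before `N`. -/
def T_VTL : Prop := ∀ (K : PMF ℕ), K 0 = 0 → ∀ (N : ℕ) (x : ℕ → ℝ), ∀ c ≤ N,
  ∑ a ∈ Finset.Ico c N, pz K x (a - c) c * (tailK K (N - a) / 2) ≤ V K N x c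

/-- CHX: the same as VSU for the pinned partition function. -/
def T_CHX : Prop := ∀ (K : PMF ℕ) (x : ℕ → ℝ) (L z : ℕ), L ≤ z → ∀ B : Finset ℕ,
  B ⊆ Finset.Icc L z → ∀ c ≤ L,
  ∑ a ∈ Finset.Ico c L, pz K x (a - c) c *
    ∑ b ∈ B, kk K (b - a) * wt x a b * pz K x (z - b) b ≤ pz K x (z - c) c

/-- TLM: the tail. -/
def T_TLM : Prop := ∀ (K : PMF ℕ), K 0 = 0 → ∀ N N' : ℕ, N ≤ N' →
  tailK K N' ≤ tailK K N ∧ kk K N ≤ tailK K N ∧ ∀ (x : ℕ → ℝ) (c : ℕ), c ≤ N →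
    tailK K (N - c) / 2 ≤ V K N x c

/-! ## B. The rare stretch lemma -/

/-- STA: from a good block to the next one. -/
def T_STA : Prop := ∀ (K : PMF ℕ), K 0 = 0 → ∀ (α c : ℝ) (n0 : ℕ), 0 < α → 0 < c →
  (∀ n : ℕ, n0 ≤ n → c * (n : ℝ) ^ (-(1 + α)) ≤ kk K n) → ∀ (ℓ m N : ℕ) (x : ℕ → ℝ), 1 ≤ ℓ →
  n0 ≤ ℓ → 1 ≤ m → ∀ j j' : ℕ, j < j' → (j' + 1) * ((2 * m + 2) * ℓ) ≤ N →
  XB K ℓ m (shift (j * ((2 * m + 2) * ℓ)) x) *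
    (c / 2 * (((j' - j) * ((2 * m + 2) * ℓ) : ℕ) : ℝ) ^ (-(1 + α)) *
      SS K ℓ ((2 * m + 2) * ℓ) N x j') ≤ SS K ℓ ((2 * m + 2) * ℓ) N x j

/-- STF: the last good block. -/
def T_STF : Prop := ∀ (K : PMF ℕ), K 0 = 0 → ∀ (ℓ m N : ℕ) (x : ℕ → ℝ), 1 ≤ ℓ → 1 ≤ m →
  ∀ j : ℕ, (j + 1) * ((2 * m + 2) * ℓ) ≤ N →
  XB K ℓ m (shift (j * ((2 * m + 2) * ℓ)) x) * (tailK K N / 2) ≤
    SS K ℓ ((2 * m + 2) * ℓ) N x j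

/-- STZ: the first good block, and no good block. -/
def T_STZ : Prop := ∀ (K : PMF ℕ), K 0 = 0 → ∀ (α c : ℝ) (n0 : ℕ), 0 < α → 0 < c →
  (∀ n : ℕ, n0 ≤ n → c * (n : ℝ) ^ (-(1 + α)) ≤ kk K n) → ∀ (ℓ m N : ℕ) (x : ℕ → ℝ), 1 ≤ ℓ →
  n0 ≤ ℓ → 1 ≤ m → tailK K N / 2 ≤ W K N x ∧ ∀ j : ℕ, (j + 1) * ((2 * m + 2) * ℓ) ≤ N →
  c / 2 * (((j + 1) * ((2 * m + 2) * ℓ) : ℕ) : ℝ) ^ (-(1 + α)) *
    SS K ℓ ((2 * m + 2) * ℓ) N x j ≤ W K N x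

/-- PWA: the pointwise lower bound. -/
def T_PWA : Prop := ∀ (K : PMF ℕ), K 0 = 0 → ∀ (α c : ℝ) (n0 : ℕ), 0 < α → 0 < c →
  (∀ n : ℕ, n0 ≤ n → c * (n : ℝ) ^ (-(1 + α)) ≤ kk K n) → ∀ (ℓ m M : ℕ) (x : ℕ → ℝ), 1 ≤ ℓ →
  n0 ≤ ℓ → 1 ≤ m → 0 < tailK K (M * ((2 * m + 2) * ℓ)) → ∀ (g p : ℝ), 0 < p →
  ∀ S : Finset ℕ, S ⊆ Finset.range M →
  (∀ j ∈ S, Real.exp g ≤ XB K ℓ m (shift (j * ((2 * m + 2) * ℓ)) x)) →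
  (S.card : ℝ) * (g + Real.log (c / 2) - (1 + α) * Real.log (((2 * m + 2) * ℓ : ℕ) : ℝ) -
      (1 + α) * (Real.log (1 / p) - 1)) - (1 + α) * p * M +
    Real.log (tailK K (M * ((2 * m + 2) * ℓ)) / 2) ≤ Real.log (W K (M * ((2 * m + 2) * ℓ)) x)

/-- EXA: the expectation. -/
def T_EXA : Prop := ∀ (K : PMF ℕ), K 0 = 0 → ∀ (α c : ℝ) (n0 : ℕ), 0 < α → 0 < c →
  (∀ n : ℕ, n0 ≤ n → c * (n : ℝ) ^ (-(1 + α)) ≤ kk K n) → ∀ (ν : Measure ℝ)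
  [IsProbabilityMeasure ν], Integrable (fun z : ℝ => z) ν → ∀ (ℓ m M : ℕ), 1 ≤ ℓ →
  n0 ≤ ℓ → 1 ≤ m → 0 < tailK K (M * ((2 * m + 2) * ℓ)) → ∀ (g p : ℝ),
  p = (iid ν).real {x | Real.exp g ≤ XB K ℓ m x} → 0 < p →
  (M : ℝ) * p * (g + Real.log (c / 2) - (1 + α) * Real.log (((2 * m + 2) * ℓ : ℕ) : ℝ) -
      (1 + α) * Real.log (1 / p)) +
    Real.log (tailK K (M * ((2 * m + 2) * ℓ)) / 2) ≤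
      ∫ x, Real.log (W K (M * ((2 * m + 2) * ℓ)) x) ∂(iid ν)

/-- MAP: the law of the charges. -/
def T_MAP : Prop := ∀ (μ : Measure ℝ) [IsProbabilityMeasure μ] (f : ℝ → ℝ), Measurable f →
  (iid μ).map (fun (ω : ℕ → ℝ) (i : ℕ) => f (ω i)) = iid (μ.map f)

/-- RSL: the rare stretch lemma. -/
def T_RSL : Prop := ∀ (α : ℝ), 0 < α → ∀ (K : PMF ℕ), K 0 = 0 → ∀ cK : ℝ, 0 < cK →
  Tendsto (fun n : ℕ => (K n).toReal * (n : ℝ) ^ (1 + α)) atTop (𝓝 cK) →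
  ∀ (μ : Measure ℝ) [IsProbabilityMeasure μ],
  (∀ t : ℝ, Integrable (fun z => Real.exp (t * z)) μ) → ∀ (c : ℝ) (n0 : ℕ), 0 < c →
  (∀ n : ℕ, n0 ≤ n → c * (n : ℝ) ^ (-(1 + α)) ≤ kk K n) → ∀ (ℓ m : ℕ), 1 ≤ ℓ → n0 ≤ ℓ → 1 ≤ m →
  ∀ (lam h g p : ℝ), p = (iid μ).real {ω | Real.exp g ≤ XB K ℓ m (ch lam h ω)} → 0 < p →
  0 < g + Real.log (c / 2) - (1 + α) * Real.log (((2 * m + 2) * ℓ : ℕ) : ℝ) -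
      (1 + α) * Real.log (1 / p) →
  ∃ f : ℝ, 0 < f ∧ HasFreeEnergy K μ lam h f

/-! ## C. Patterns -/

/-- GGS: the group functional is nonnegative; the mass. -/
def T_GGS : Prop := ∀ (K : PMF ℕ) (ℓ : ℕ), 1 ≤ ℓ → 0 < VV K ℓ ∧
  (∀ t n t' (x : ℕ → ℝ), 0 ≤ gg K ℓ t n t' x) ∧ (∀ L (x : ℕ → ℝ), 0 ≤ FB K ℓ L x) ∧
  ∀ n, 1 ≤ n → ∑ y ∈ Finset.Ico ((2 * n - 1) * ℓ) (2 * n * ℓ), ∑ z ∈ Finset.Ico y (2 * n * ℓ),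
    uu (kk K) (z - y) = VV K ℓ

/-- BAS: the last group. -/
def T_BAS : Prop := ∀ (K : PMF ℕ) (ℓ : ℕ), 1 ≤ ℓ → ∀ t n (x : ℕ → ℝ), 1 ≤ n →
  VV K ℓ * gg K ℓ t n false x ≤ Xg K ℓ t n 0 x

/-- STP: from one group to the next. -/
def T_STP : Prop := ∀ (K : PMF ℕ) (ℓ : ℕ), 1 ≤ ℓ → ∀ (t t' : Bool) (n n' m' : ℕ) (x : ℕ → ℝ),
  1 ≤ n → 1 ≤ n' → ∀ b : ℝ, 0 ≤ b →
  (∀ j : ℕ, (2 * n' - 1) * ℓ ≤ j → j ≤ (2 * n' + 1) * ℓ → b ≤ kk K j / 2 * VV K ℓ) →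
  b * gg K ℓ t n t' x * Xg K ℓ t' n' m' (shift (2 * n * ℓ) x) ≤ Xg K ℓ t n (n' + m') x

/-- PAT: the block functional bounds the functional of every pattern. -/
def T_PAT : Prop := ∀ (K : PMF ℕ) (ℓ : ℕ) (α a : ℝ), 1 ≤ ℓ → 0 ≤ a →
  (∀ n j : ℕ, 1 ≤ n → (2 * n - 1) * ℓ ≤ j → j ≤ (2 * n + 1) * ℓ →
    a * (2 * (n : ℝ) + 1) ^ (-(1 + α)) ≤ kk K j / 2 * VV K ℓ) →
  ∀ (q R : ℕ) (L : List (ℕ × ℕ)), 1 ≤ q → okL q R L → L ≠ [] → ∀ x : ℕ → ℝ,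
  VV K ℓ * (dc α a L * FB K ℓ L x) ≤ XB K ℓ (tot L) x

/-- DIS: the favourable events are disjoint. -/
def T_DIS : Prop := ∀ (q R ℓ : ℕ), 1 ≤ q → ∀ (L L' : List (ℕ × ℕ)) (x : ℕ → ℝ), okL q R L →
  okL q R L' → tot L = tot L' → GP q ℓ L x → GP q ℓ L' x → L = L'

/-- MSG: measurability and dependence. -/
def T_MSG : Prop := ∀ (K : PMF ℕ) (ℓ q : ℕ) (t t' : Bool) (n : ℕ),
  Measurable (gg K ℓ t n t') ∧ MeasurableSet {x : ℕ → ℝ | Gd q ℓ t n x} ∧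
  DepLt (2 * n * ℓ) (gg K ℓ t n t') ∧ DepLt (2 * n * ℓ) (Gd q ℓ t n)

/-- MSL: the same for patterns. -/
def T_MSL : Prop := ∀ (K : PMF ℕ) (ℓ q m : ℕ) (L : List (ℕ × ℕ)),
  Measurable (ff K ℓ L) ∧ MeasurableSet {x : ℕ → ℝ | GP q ℓ L x} ∧
  DepLt (2 * tot L * ℓ) (ff K ℓ L) ∧ DepLt (2 * tot L * ℓ) (GP q ℓ L) ∧
  Measurable (FB K ℓ L) ∧ MeasurableSet {x : ℕ → ℝ | GB q ℓ L x} ∧ Measurable (XB K ℓ m)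

open Classical in
/-- YPW: powers of the sum over disjoint events. -/
def T_YPW : Prop := ∀ (K : PMF ℕ) (α a : ℝ) (q R ℓ : ℕ) (P : Finset (List (ℕ × ℕ))) (m : ℕ),
  1 ≤ q → 0 ≤ a → 1 ≤ ℓ → (∀ L ∈ P, okL q R L ∧ tot L = m) → ∀ (x : ℕ → ℝ) (s : ℝ), 0 < s →
  0 ≤ YY K α a q ℓ P x ∧
  YY K α a q ℓ P x ^ s = ∑ L ∈ P, if GB q ℓ L x then (dc α a L * FB K ℓ L x) ^ s else 0

/-- YXB: the sum is below the block functional. -/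
def T_YXB : Prop := ∀ (K : PMF ℕ) (ℓ : ℕ) (α a : ℝ), 1 ≤ ℓ → 0 ≤ a →
  (∀ n j : ℕ, 1 ≤ n → (2 * n - 1) * ℓ ≤ j → j ≤ (2 * n + 1) * ℓ →
    a * (2 * (n : ℝ) + 1) ^ (-(1 + α)) ≤ kk K j / 2 * VV K ℓ) →
  ∀ (q R m : ℕ) (P : Finset (List (ℕ × ℕ))), 1 ≤ q → 1 ≤ m →
  (∀ L ∈ P, okL q R L ∧ tot L = m) → ∀ x : ℕ → ℝ,
  VV K ℓ * YY K α a q ℓ P x ≤ XB K ℓ m x

/-! ## D. Expectations (the charges are i.i.d. with law `ν`) -/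

/-- PRE: exponentials of linear functionals. -/
def T_PRE : Prop := ∀ (ν : Measure ℝ) [IsProbabilityMeasure ν],
  (∀ t : ℝ, Integrable (fun z => Real.exp (t * z)) ν) → ∀ (c : ℕ → ℝ) (N : ℕ),
  Integrable (fun x : ℕ → ℝ => Real.exp (∑ i ∈ Finset.range N, c i * x i)) (iid ν) ∧
  ∫ x : ℕ → ℝ, Real.exp (∑ i ∈ Finset.range N, c i * x i) ∂(iid ν) =
    ∏ i ∈ Finset.range N, Mo ν (c i)

/-- EXC: the exact value of the exponential moments of one term of a group. -/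
def T_EXC : Prop := ∀ (ν : Measure ℝ) [IsProbabilityMeasure ν],
  (∀ t : ℝ, Integrable (fun z => Real.exp (t * z)) ν) → ∀ (s θ : ℝ) (ℓ : ℕ) (t t' : Bool)
  (n a b y z : ℕ), 1 ≤ ℓ → 1 ≤ n → a ≤ b → b ≤ n → (2 * n - 1) * ℓ ≤ y → y ≤ z → z < 2 * n * ℓ →
  Integrable (fun x : ℕ → ℝ => Real.exp (s * ex ℓ t n t' x y z + θ * SX ℓ x a b)) (iid ν) ∧
  ∫ x : ℕ → ℝ, Real.exp (s * ex ℓ t n t' x y z + θ * SX ℓ x a b) ∂(iid ν) =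
    Mo ν ((if t then s else 0) + θ) ^ ((b - a) * ℓ) *
      Mo ν (if t then s else 0) ^ (y - (b - a) * ℓ) * Mo ν (s / 2) ^ (z - y) *
      Mo ν (if t' then s else 0) ^ (2 * n * ℓ - z)

open Classical in
/-- EXG: one term of a group. -/
def T_EXG : Prop := ∀ (ν : Measure ℝ) [IsProbabilityMeasure ν],
  (∀ t : ℝ, Integrable (fun z => Real.exp (t * z)) ν) → ∀ (γ : ℝ) (q ℓ : ℕ) (t t' : Bool) (n : ℕ),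
  0 < γ → 1 ≤ q → 1 ≤ ℓ → 1 ≤ n → (t = false → n ≤ 8 ^ (q - 1)) → Mo ν γ ≤ 1 → Mo ν (γ / 2) ≤ 1 →
  Mo ν (γ / 2) ^ ℓ ≤ 1 / 8 * Mo ν γ ^ ℓ → ∀ y z : ℕ, (2 * n - 1) * ℓ ≤ y → y ≤ z →
  z < 2 * n * ℓ →
  1 / 2 * (Mo ν γ ^ (((if t then 2 * n else 0) + 1) * ℓ) * Mo ν (γ / 2) ^ ℓ) ≤
    ∫ x : ℕ → ℝ, (if Gd q ℓ t n x then Real.exp (γ * ex ℓ t n t' x y z) else 0) ∂(iid ν)

/-- EXI: one term of a group, upper bound. -/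
def T_EXI : Prop := ∀ (ν : Measure ℝ) [IsProbabilityMeasure ν],
  (∀ t : ℝ, Integrable (fun z => Real.exp (t * z)) ν) → ∀ (s D : ℝ) (ℓ : ℕ) (t t' : Bool) (n : ℕ),
  0 < s → 1 ≤ D → 1 ≤ ℓ → 1 ≤ n → Mo ν s ^ ℓ ≤ D → Mo ν (s / 2) ≤ 1 →
  ∀ y z : ℕ, (2 * n - 1) * ℓ ≤ y → y ≤ z → z < 2 * n * ℓ →
  Integrable (fun x : ℕ → ℝ => Real.exp (s * ex ℓ t n t' x y z)) (iid ν) ∧
    ∫ x : ℕ → ℝ, Real.exp (s * ex ℓ t n t' x y z) ∂(iid ν) ≤ D ^ (2 * n + 1)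

/-- GIN: integrability of powers of the group functional. -/
def T_GIN : Prop := ∀ (K : PMF ℕ) (ν : Measure ℝ) [IsProbabilityMeasure ν],
  (∀ t : ℝ, Integrable (fun z => Real.exp (t * z)) ν) → ∀ (s : ℝ) (ℓ : ℕ) (t t' : Bool) (n : ℕ),
  0 < s → 1 ≤ ℓ → 1 ≤ n → Integrable (fun x => gg K ℓ t n t' x ^ s) (iid ν)

open Classical in
/-- GRP: the fractional moment of a group on its event. -/
def T_GRP : Prop := ∀ (K : PMF ℕ) (ν : Measure ℝ) [IsProbabilityMeasure ν],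
  (∀ t : ℝ, Integrable (fun z => Real.exp (t * z)) ν) → ∀ (γ : ℝ) (q ℓ : ℕ) (t t' : Bool) (n : ℕ),
  0 < γ → γ ≤ 1 → 1 ≤ q → 1 ≤ ℓ → 1 ≤ n → (t = false → n ≤ 8 ^ (q - 1)) → Mo ν γ ≤ 1 →
  Mo ν (γ / 2) ≤ 1 → Mo ν (γ / 2) ^ ℓ ≤ 1 / 8 * Mo ν γ ^ ℓ →
  1 / 2 * (Mo ν γ ^ (((if t then 2 * n else 0) + 1) * ℓ) * Mo ν (γ / 2) ^ ℓ) ≤
    ∫ x, (if Gd q ℓ t n x then gg K ℓ t n t' x ^ γ else 0) ∂(iid ν)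

/-- GR0: the fractional moment of the first group. -/
def T_GR0 : Prop := ∀ (K : PMF ℕ) (ν : Measure ℝ) [IsProbabilityMeasure ν],
  (∀ t : ℝ, Integrable (fun z => Real.exp (t * z)) ν) → ∀ (γ : ℝ) (ℓ : ℕ),
  0 < γ → γ ≤ 1 → 1 ≤ ℓ → Mo ν (γ / 2) ≤ 1 →
  Mo ν (γ / 2) ^ ℓ ≤ ∫ x, gg K ℓ false 1 false x ^ γ ∂(iid ν)

open Classical in
/-- PRD: the fractional moment of a pattern on its event. -/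
def T_PRD : Prop := ∀ (K : PMF ℕ) (ν : Measure ℝ) [IsProbabilityMeasure ν],
  (∀ t : ℝ, Integrable (fun z => Real.exp (t * z)) ν) → ∀ (γ b b0 : ℝ) (q R ℓ : ℕ),
  0 < γ → 1 ≤ q → 1 ≤ ℓ → 0 ≤ b → 0 ≤ b0 →
  (∀ u, 2 * q ≤ u → u ≤ R →
    b ≤ ∫ x, (if Gd q ℓ false u x then gg K ℓ false u true x ^ γ else 0) ∂(iid ν)) →
  (∀ v, q ≤ v → v < 2 * q →
    b ≤ ∫ x, (if Gd q ℓ true v x then gg K ℓ true v false x ^ γ else 0) ∂(iid ν)) →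
  b0 ≤ ∫ x, gg K ℓ false 1 false x ^ γ ∂(iid ν) → ∀ L : List (ℕ × ℕ), okL q R L →
  b0 * b ^ (2 * L.length) ≤ ∫ x, (if GB q ℓ L x then FB K ℓ L x ^ γ else 0) ∂(iid ν)

/-- SCG: higher moments of a group. -/
def T_SCG : Prop := ∀ (K : PMF ℕ) (ν : Measure ℝ) [IsProbabilityMeasure ν],
  (∀ t : ℝ, Integrable (fun z => Real.exp (t * z)) ν) → ∀ (s D : ℝ) (ℓ : ℕ) (t t' : Bool) (n : ℕ),
  1 ≤ s → 1 ≤ D → 1 ≤ ℓ → 1 ≤ n → Mo ν s ^ ℓ ≤ D → Mo ν (s / 2) ≤ 1 →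
  ∫ x, gg K ℓ t n t' x ^ s ∂(iid ν) ≤ D ^ (2 * n + 1)

/-- SCL: higher moments of a pattern, and integrability. -/
def T_SCL : Prop := ∀ (K : PMF ℕ) (ν : Measure ℝ) [IsProbabilityMeasure ν],
  (∀ t : ℝ, Integrable (fun z => Real.exp (t * z)) ν) → ∀ (s : ℝ) (q R ℓ : ℕ),
  0 < s → 1 ≤ q → 1 ≤ ℓ → ∀ L : List (ℕ × ℕ), okL q R L →
  Integrable (fun x => FB K ℓ L x ^ s) (iid ν) ∧ ∀ D : ℝ, 1 ≤ s → 1 ≤ D → Mo ν s ^ ℓ ≤ D →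
    Mo ν (s / 2) ≤ 1 →
    ∫ x, FB K ℓ L x ^ s ∂(iid ν) ≤ D ^ (2 * tot L + 2 * L.length + 3)

/-- DCW: the coefficient. -/
def T_DCW : Prop := ∀ (α a b : ℝ), 0 < α → 0 < a → a ≤ 1 → 0 < b → ∀ L : List (ℕ × ℕ),
  0 < dc α a L ∧ dc α a L ≤ 1 ∧ wL (a * b) L ≤ dc α a L ^ (1 / (1 + α)) * b ^ (2 * L.length)

open Classical in
/-- YLO: lower bound of the fractional moment. -/
def T_YLO : Prop := ∀ (K : PMF ℕ) (ν : Measure ℝ) [IsProbabilityMeasure ν],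
  (∀ t : ℝ, Integrable (fun z => Real.exp (t * z)) ν) → ∀ (α a b b0 : ℝ) (q R ℓ m : ℕ)
  (P : Finset (List (ℕ × ℕ))), 0 < α → 0 < a → a ≤ 1 → 0 < b → 0 ≤ b0 → 1 ≤ q → 1 ≤ ℓ →
  (∀ L ∈ P, okL q R L ∧ tot L = m) →
  (∀ L : List (ℕ × ℕ), okL q R L → b0 * b ^ (2 * L.length) ≤
    ∫ x, (if GB q ℓ L x then FB K ℓ L x ^ (1 / (1 + α)) else 0) ∂(iid ν)) →
  Integrable (fun x => YY K α a q ℓ P x ^ (1 / (1 + α))) (iid ν) ∧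
  b0 * ∑ L ∈ P, wL (a * b) L ≤ ∫ x, YY K α a q ℓ P x ^ (1 / (1 + α)) ∂(iid ν)

/-- YUP: upper bound of the second moment. -/
def T_YUP : Prop := ∀ (K : PMF ℕ) (ν : Measure ℝ) [IsProbabilityMeasure ν],
  (∀ t : ℝ, Integrable (fun z => Real.exp (t * z)) ν) → ∀ (α a s D : ℝ) (q R ℓ m k : ℕ)
  (P : Finset (List (ℕ × ℕ))), 0 < α → 0 < a → a ≤ 1 → 1 ≤ s → 1 ≤ D → 1 ≤ q → 1 ≤ ℓ →
  Mo ν s ^ ℓ ≤ D → Mo ν (s / 2) ≤ 1 → (∀ L ∈ P, okL q R L ∧ tot L = m ∧ L.length = k) →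
  Integrable (fun x => YY K α a q ℓ P x ^ s) (iid ν) ∧
  ∫ x, YY K α a q ℓ P x ^ s ∂(iid ν) ≤ P.card * D ^ (2 * m + 2 * k + 3)

/-! ## E. Counting and numbers -/

/-- LVL: a level. -/
def T_LVL : Prop := ∀ {Ω : Type} [MeasurableSpace Ω] (P : Measure Ω) [IsProbabilityMeasure P]
  (Z : Ω → ℝ), Measurable Z → (∀ ω, 0 ≤ Z ω) → Integrable Z P → Integrable (fun ω => Z ω ^ 2) P →
  ∀ (E0 E2 : ℝ) (J : ℕ), 0 < E0 → E0 ≤ ∫ ω, Z ω ∂P → ∫ ω, Z ω ^ 2 ∂P ≤ E2 → 1 ≤ J →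
  16 * E2 ≤ 2 ^ J * E0 ^ 2 → ∃ s : ℝ, 0 < s ∧ E0 / (4 * J) ≤ s * P.real {ω | s ≤ Z ω}

/-- PTM: the patterns. -/
def T_PTM : Prop := ∀ (q R k : ℕ) (L : List (ℕ × ℕ)), 1 ≤ q → (L ∈ PT q R k ↔ okL q R L ∧
  L.length = k) ∧ (PT q R k).card ≤ (R * q) ^ k ∧ (L ∈ PT q R k → tot L ≤ k * (R + 2 * q)) ∧
  (L ∈ PT q R k → 1 ≤ k → 1 ≤ tot L)

/-- SUM: the sum over all patterns with `k` pairs. -/
def T_SUM : Prop := ∀ (q R k : ℕ) (c : ℝ), ∑ L ∈ PT q R k, wL c L =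
  ((∑ u ∈ Finset.Icc (2 * q) R, c / (2 * (u : ℝ) + 1)) *
    ∑ v ∈ Finset.Ico q (2 * q), c / (2 * (v : ℝ) + 1)) ^ k

/-- PIG: a number of cells. -/
def T_PIG : Prop := ∀ (q R k : ℕ) (c S : ℝ), 1 ≤ q → 0 < c → S ≤ ∑ L ∈ PT q R k, wL c L →
  ∃ m ≤ k * (R + 2 * q), S / ((k * (R + 2 * q) + 1 : ℕ) : ℝ) ≤ ∑ L ∈ PM q R k m, wL c L

/-- SNU: the sum is at least two. -/
def T_SNU : Prop := ∀ (q : ℕ) (c : ℝ), 0 < c → c ≤ 1 → 32 / c ^ 2 ≤ q →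
  2 ≤ (∑ u ∈ Finset.Icc (2 * q) (8 ^ (q - 1)), c / (2 * (u : ℝ) + 1)) *
    ∑ v ∈ Finset.Ico q (2 * q), c / (2 * (v : ℝ) + 1)

/-- KSE: exponential growth beats polynomials. -/
def T_KSE : Prop := ∀ (b0 D C : ℝ) (R' T : ℕ), 0 < b0 → 1 ≤ D → 0 < C → 1 ≤ R' → 1 ≤ T →
  ∃ k : ℕ, 1 ≤ k ∧ ∀ m ≤ k * T, ∃ J : ℕ, 1 ≤ J ∧
    16 * ((R' : ℝ) ^ k * D ^ (2 * m + 2 * k + 3)) ≤
      2 ^ J * (b0 * (2 ^ k / ((k * T + 1 : ℕ) : ℝ))) ^ 2 ∧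
    C * ((m : ℝ) + 1) < b0 * (2 ^ k / ((k * T + 1 : ℕ) : ℝ)) / (4 * J)

/-! ## F. Asymptotics -/

/-- KLO: lower bound of the inter-arrival law. -/
def T_KLO : Prop := ∀ (α : ℝ), 0 < α → ∀ (K : PMF ℕ) (cK : ℝ), 0 < cK →
  Tendsto (fun n : ℕ => (K n).toReal * (n : ℝ) ^ (1 + α)) atTop (𝓝 cK) →
  ∀ᶠ n : ℕ in atTop, cK / 2 * (n : ℝ) ^ (-(1 + α)) ≤ kk K n

/-- UUL: lower bound of the renewal mass. -/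
def T_UUL : Prop := ∀ (α : ℝ), 0 < α → α < 1 → ∀ (K : PMF ℕ), K 0 = 0 → ∀ cK : ℝ, 0 < cK →
  Tendsto (fun n : ℕ => (K n).toReal * (n : ℝ) ^ (1 + α)) atTop (𝓝 cK) →
  ∀ᶠ n : ℕ in atTop, α * (1 - α) / (2 * cK) * (n : ℝ) ^ α ≤ UU K n

/-- VVL: lower bound of the mass of the pairs. -/
def T_VVL : Prop := ∀ (α : ℝ), 0 < α → α < 1 → ∀ (K : PMF ℕ), K 0 = 0 → ∀ cK : ℝ, 0 < cK →
  Tendsto (fun n : ℕ => (K n).toReal * (n : ℝ) ^ (1 + α)) atTop (𝓝 cK) →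
  ∀ᶠ n : ℕ in atTop, α * (1 - α) / (8 * cK) * (n : ℝ) ^ (1 + α) ≤ VV K n

/-- MOM: the exponential moments of the charges. -/
def T_MOM : Prop := ∀ (μ : Measure ℝ) [IsProbabilityMeasure μ],
  (∀ t : ℝ, Integrable (fun z => Real.exp (t * z)) μ) → ∫ z, z ∂μ = 0 → ∫ z, z ^ 2 ∂μ = 1 →
  ∀ (γ δ : ℝ) (q : ℕ), 1 / 2 ≤ γ → γ ≤ 1 → 0 < δ → 1 ≤ q → 640 * q * δ ≤ 1 →
  ∀ᶠ lam in 𝓝[>] (0 : ℝ), ∀ ν : Measure ℝ,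
    ν = μ.map (fun z => -2 * lam * (z + (γ + δ) * lam)) → ∀ ℓ : ℕ, ℓ = ⌈32 / lam ^ 2⌉₊ →
    Mo ν γ ≤ 1 ∧ Mo ν (γ / 2) ≤ 1 ∧ Mo ν (γ / 2) ^ ℓ ≤ 1 / 8 * Mo ν γ ^ ℓ ∧
    Real.exp (-18) ≤ Mo ν (γ / 2) ^ ℓ ∧ 1 / 2 ≤ Mo ν γ ^ ((4 * q + 1) * ℓ) ∧
    Mo ν (2 * γ) ^ ℓ ≤ Real.exp 140

end Pool.Agent.H55.CG
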