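import Pool.Agent.H68.CG.BAS
import Pool.Agent.H14.CG.CHX
import Pool.Agent.H1.CG.DCW
import Pool.Agent.H4.CG.DIS
import Pool.Agent.H53.CG.EXA
import Pool.Agent.H13.CG.EXC
import Pool.Agent.H12.CG.EXG
import Pool.Agent.H65.CG.EXI
import Pool.Agent.H35.CG.GGS
import Pool.Agent.H86.CG.GIN
import Pool.Agent.H53.CG.GR0
import Pool.Agent.H27.CG.GRP
import Pool.Agent.H42.CG.KSE
import Pool.Agent.H85.CG.LVL
import Pool.Agent.H53.CG.MAP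
import Pool.Agent.H59.CG.MOM
import Pool.Agent.H60.CG.YXB
import Pool.Agent.H49.CG.MSL
import Pool.Agent.H7.CG.PAT
import Pool.Agent.H60.CG.PTM
import Pool.Agent.H59.CG.PRD
import Pool.Agent.H17.CG.PRE
import Pool.Agent.H63.CG.PWA
import Pool.Agent.H19.CG.PZS
import Pool.Agent.H20.CG.RSL
import Pool.Agent.H53.CG.SCG
import Pool.Agent.H17.CG.SCL
import Pool.Agent.H86.CG.SNU
import Pool.Agent.H14.CG.STA
import Pool.Agent.H49.CG.STF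
import Pool.Agent.H20.CG.STP
import Pool.Agent.H33.CG.STZ
import Pool.Agent.H40.CG.SUM
import Pool.Agent.H45.CG.TLM
import Pool.Agent.H68.CG.UUL
import Pool.Agent.H69.CG.VSU
import Pool.Agent.H27.CG.VVL
import Pool.Agent.H85.CG.YLO
import Pool.Agent.H89.CG.YPW
import Pool.Agent.H35.CG.YUP

/-!
# Closed versions of all targets (helper55)
-/

set_option autoImplicit false

namespace Pool.Agent.H55.CG

theorem c_DCW : T_DCW :=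
  Pool.Agent.H1.CG.pf_DCW

theorem c_DIS : T_DIS :=
  Pool.Agent.H4.CG.pf_DIS

theorem c_GGS : T_GGS :=
  Pool.Agent.H35.CG.pf_GGS

theorem c_KLO : T_KLO :=
  Pool.Agent.H42.CG.pf_KLO

theorem c_KSE : T_KSE :=
  Pool.Agent.H42.CG.pf_KSE

theorem c_LVL : T_LVL :=
  Pool.Agent.H85.CG.pf_LVL

theorem c_MAP : T_MAP :=
  Pool.Agent.H53.CG.pf_MAP

theorem c_MOM : T_MOM :=
  Pool.Agent.H59.CG.MOM.pf_MOM

theorem c_MSG : T_MSG :=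
  Pool.Agent.H60.CG.pf_MSG

theorem c_PRE : T_PRE :=
  Pool.Agent.H17.CG.pf_PRE

theorem c_PTM : T_PTM :=
  Pool.Agent.H60.CG.pf_PTM

theorem c_PZS : T_PZS :=
  Pool.Agent.H19.CG.pf_PZS

theorem c_PZU : T_PZU :=
  Pool.Agent.H19.CG.pf_PZU c_PZS

theorem c_SNU : T_SNU :=
  Pool.Agent.H86.CG.pf_SNU

theorem c_SUM : T_SUM :=
  Pool.Agent.H40.CG.SUM.pf_SUM

theorem c_TLM : T_TLM :=
  Pool.Agent.H45.CG.pf_TLM

theorem c_UUL : T_UUL :=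
  Pool.Agent.H68.CG.pf_UUL

theorem c_VSU : T_VSU :=
  Pool.Agent.H69.CG.pf_VSU c_PZS

theorem c_VTL : T_VTL :=
  Pool.Agent.H69.CG.pf_VTL c_PZS c_TLM

theorem c_VVL : T_VVL :=
  Pool.Agent.H27.CG.pf_VVL c_UUL

theorem c_YPW : T_YPW :=
  Pool.Agent.H89.CG.pf_YPW c_DIS c_GGS

theorem c_BAS : T_BAS :=
  Pool.Agent.H68.CG.pf_BAS c_PZS c_PZU c_GGS

theorem c_CHX : T_CHX :=
  Pool.Agent.H14.CG.CHX.pf_CHX c_PZS

theorem c_EXC : T_EXC :=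
  Pool.Agent.H13.CG.pf_EXC c_PRE

theorem c_EXG : T_EXG :=
  Pool.Agent.H12.CG.pf_EXG c_EXC c_MSG

theorem c_EXI : T_EXI :=
  Pool.Agent.H65.CG.pf_EXI c_EXC

theorem c_GIN : T_GIN :=
  Pool.Agent.H86.CG.pf_GIN c_EXC c_MSG c_GGS

theorem c_GR0 : T_GR0 :=
  Pool.Agent.H53.CG.pf_GR0 c_EXC c_GGS c_GIN

theorem c_GRP : T_GRP :=
  Pool.Agent.H27.CG.pf_GRP c_EXG c_EXC c_GGS c_MSG

theorem c_PIG : T_PIG :=
  Pool.Agent.H60.CG.pf_PIG c_PTM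

theorem c_PZM : T_PZM :=
  Pool.Agent.H19.CG.pf_PZM c_PZS

theorem c_SCG : T_SCG :=
  Pool.Agent.H53.CG.pf_SCG c_EXI c_GGS c_MSG c_GIN

theorem c_STA : T_STA :=
  Pool.Agent.H14.CG.STA.pf_STA c_PZS c_VSU

theorem c_STF : T_STF :=
  Pool.Agent.H49.CG.pf_STF c_PZS c_VTL c_TLM

theorem c_STP : T_STP :=
  Pool.Agent.H20.CG.pf_STP c_PZS c_PZU c_CHX c_GGS

theorem c_STZ : T_STZ :=
  Pool.Agent.H33.CG.pf_STZ c_TLM

theorem c_MSL : T_MSL :=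
  Pool.Agent.H49.CG.pf_MSL c_MSG c_PZM

theorem c_PAT : T_PAT :=
  Pool.Agent.H7.CG.pf_PAT c_BAS c_STP c_GGS c_PZS

theorem c_PRD : T_PRD :=
  Pool.Agent.H59.CG.PRD.pf_PRD c_MSG c_MSL c_GIN c_GGS

theorem c_PWA : T_PWA :=
  Pool.Agent.H63.CG.PWA.pf_PWA c_STA c_STF c_STZ

theorem c_SCL : T_SCL :=
  Pool.Agent.H17.CG.pf_SCL c_SCG c_GIN c_MSG c_MSL c_GGS

theorem c_YLO : T_YLO :=
  Pool.Agent.H85.CG.pf_YLO c_YPW c_DCW c_SCL c_MSL c_GGS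

theorem c_YUP : T_YUP :=
  Pool.Agent.H35.CG.pf_YUP c_YPW c_DCW c_SCL c_MSL c_GGS

theorem c_YXB : T_YXB :=
  Pool.Agent.H60.CG.pf_YXB c_PAT c_DIS c_GGS c_PZS

theorem c_EXA : T_EXA :=
  Pool.Agent.H53.CG.pf_EXA c_PWA c_PZM c_MSL

theorem c_RSL : T_RSL :=
  Pool.Agent.H20.CG.pf_RSL c_EXA c_MAP c_MSL c_TLM

end Pool.Agent.H55.CG
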