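import Pool.Agent.H95.Cop.Final

/-!
# The order of the gap of the slope of the copolymer critical curve: definitions (helper55)

Problem `MP_65efe8_pr`. The charges are a sequence `x` of real numbers (`x i = -2 λ (ω i + h)`), cells
have `ℓ` sites. A block consists of the cells `Y_0 V_0 Y_1 V_1 ... Y_m V_m`; the renewal process jumps
from window `V_b` to window `V_b'` by one long excursion and does small steps inside the windows.
-/

set_option autoImplicit false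

open MeasureTheory ProbabilityTheory Filter Topology
open Pool.Agent.H95 Pool.Agent.H95.Cop

namespace Pool.Agent.H55.CG

/-- pinned partition function from the renewal point `a` to the renewal point `a + d` -/
noncomputable def pz (K : PMF ℕ) (x : ℕ → ℝ) : ℕ → ℕ → ℝ
  | 0, _ => 1
  | d + 1, a => ∑ j : Fin (d + 1), kk K (j + 1) * wt x a (a + (j + 1)) * pz K x (d - j) (a + (j + 1))
termination_by d _ => d

/-- the mass of the pairs of points of a window -/
noncomputable def VV (K : PMF ℕ) (ℓ : ℕ) : ℝ :=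
  ∑ y ∈ Finset.range ℓ, ∑ z ∈ Finset.Ico y ℓ, uu (kk K) (z - y)

/-- block functional: from the window `V_0` to the window `V_m` -/
noncomputable def XB (K : PMF ℕ) (ℓ m : ℕ) (x : ℕ → ℝ) : ℝ :=
  ∑ y ∈ Finset.Ico ℓ (2 * ℓ), ∑ z ∈ Finset.Ico ((2 * m + 1) * ℓ) ((2 * m + 2) * ℓ), pz K x (z - y) y

/-- the same functional from the last window of a group of `n` cells of type `t` (`true`: below)
through `m` more cells -/
noncomputable def Xg (K : PMF ℕ) (ℓ : ℕ) (t : Bool) (n m : ℕ) (x : ℕ → ℝ) : ℝ :=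
  ∑ y ∈ Finset.Ico ((2 * n - 1) * ℓ) (2 * n * ℓ), Real.exp (if t then H x 0 y else 0) *
    ∑ z ∈ Finset.Ico ((2 * (n + m) - 1) * ℓ) (2 * (n + m) * ℓ),
      if y ≤ z then pz K x (z - y) y else 0

/-- the exponent of a group: the long excursion (type `t`) up to `y`, small steps from `y` to `z`, the
beginning of the next long excursion (type `t'`) -/
noncomputable def ex (ℓ : ℕ) (t : Bool) (n : ℕ) (t' : Bool) (x : ℕ → ℝ) (y z : ℕ) : ℝ :=
  (if t then H x 0 y else 0) + H x y z / 2 + (if t' then H x z (2 * n * ℓ) else 0)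

/-- the normalised functional of a group of `n` cells -/
noncomputable def gg (K : PMF ℕ) (ℓ : ℕ) (t : Bool) (n : ℕ) (t' : Bool) (x : ℕ → ℝ) : ℝ :=
  (∑ y ∈ Finset.Ico ((2 * n - 1) * ℓ) (2 * n * ℓ), ∑ z ∈ Finset.Ico y (2 * n * ℓ),
    uu (kk K) (z - y) * Real.exp (ex ℓ t n t' x y z)) / VV K ℓ

/-- the total charge of the measured cells `Y_a, ..., Y_(b-1)` of a group -/
noncomputable def SX (ℓ : ℕ) (x : ℕ → ℝ) (a b : ℕ) : ℝ :=
  ∑ j ∈ Finset.Ico a b, H x (2 * j * ℓ) ((2 * j + 1) * ℓ)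

/-- the favourable event of a group of `n` cells -/
def Gd (q ℓ : ℕ) : Bool → ℕ → (ℕ → ℝ) → Prop
  | true, n, x => ∀ j, 1 ≤ j → j ≤ n → 0 < SX ℓ x 0 j ∧ 0 < SX ℓ x (n - j) n
  | false, n, x => (∀ j, 1 ≤ j → j ≤ n → SX ℓ x 0 j < 0 ∧ SX ℓ x (n - j) n < 0) ∧
      ∀ a b, a + q ≤ b → b ≤ n → SX ℓ x a b < 0

/-- the number of cells of a pattern -/
def tot : List (ℕ × ℕ) → ℕ
  | [] => 0
  | p :: L => p.1 + p.2 + tot L

/-- the functional of a pattern (pairs of a group above and a group below) -/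
noncomputable def ff (K : PMF ℕ) (ℓ : ℕ) : List (ℕ × ℕ) → (ℕ → ℝ) → ℝ
  | [], _ => 1
  | p :: L, x => gg K ℓ false p.1 true x * gg K ℓ true p.2 false (shift (2 * p.1 * ℓ) x) *
      ff K ℓ L (shift (2 * (p.1 + p.2) * ℓ) x)

/-- the favourable event of a pattern -/
def GP (q ℓ : ℕ) : List (ℕ × ℕ) → (ℕ → ℝ) → Prop
  | [], _ => True
  | p :: L, x => Gd q ℓ false p.1 x ∧ Gd q ℓ true p.2 (shift (2 * p.1 * ℓ) x) ∧
      GP q ℓ L (shift (2 * (p.1 + p.2) * ℓ) x)

/-- the coefficient of a pattern -/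
noncomputable def dc (α a : ℝ) : List (ℕ × ℕ) → ℝ
  | [] => 1
  | p :: L => (a * (2 * (p.1 : ℝ) + 1) ^ (-(1 + α))) * (a * (2 * (p.2 : ℝ) + 1) ^ (-(1 + α))) *
      dc α a L

/-- the functional of a block -/
noncomputable def FB (K : PMF ℕ) (ℓ : ℕ) (L : List (ℕ × ℕ)) (x : ℕ → ℝ) : ℝ :=
  gg K ℓ false 1 false x * ff K ℓ L (shift (2 * ℓ) x)

/-- the favourable event of a block -/
def GB (q ℓ : ℕ) (L : List (ℕ × ℕ)) (x : ℕ → ℝ) : Prop := GP q ℓ L (shift (2 * ℓ) x)

/-- admissible patterns -/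
def okL (q R : ℕ) (L : List (ℕ × ℕ)) : Prop :=
  ∀ p ∈ L, 2 * q ≤ p.1 ∧ p.1 ≤ R ∧ q ≤ p.2 ∧ p.2 < 2 * q

/-- the patterns with `k` pairs -/
def PT (q R : ℕ) : ℕ → Finset (List (ℕ × ℕ))
  | 0 => {[]}
  | k + 1 => ((Finset.Icc (2 * q) R ×ˢ Finset.Ico q (2 * q)) ×ˢ PT q R k).image
      fun c => c.1 :: c.2

/-- the patterns with `k` pairs and `m` cells -/
def PM (q R k m : ℕ) : Finset (List (ℕ × ℕ)) := (PT q R k).filter fun L => tot L = m

open Classical in
/-- the sum of the pattern functionals over disjoint events -/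
noncomputable def YY (K : PMF ℕ) (α a : ℝ) (q ℓ : ℕ) (P : Finset (List (ℕ × ℕ))) (x : ℕ → ℝ) : ℝ :=
  ∑ L ∈ P, if GB q ℓ L x then dc α a L * FB K ℓ L x else 0

/-- the weight of a pattern -/
noncomputable def wL (c : ℝ) : List (ℕ × ℕ) → ℝ
  | [] => 1
  | p :: L => c / (2 * (p.1 : ℝ) + 1) * (c / (2 * (p.2 : ℝ) + 1)) * wL c L

/-- the sum of the partition functions from the points of the window `V_0` of the block `j` -/
noncomputable def SS (K : PMF ℕ) (ℓ B N : ℕ) (x : ℕ → ℝ) (j : ℕ) : ℝ :=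
  ∑ y ∈ Finset.Ico (j * B + ℓ) (j * B + 2 * ℓ), V K N x y

/-- exponential moments of the charges -/
noncomputable def Mo (ν : Measure ℝ) (s : ℝ) : ℝ := ∫ z, Real.exp (s * z) ∂ν

end Pool.Agent.H55.CG
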