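import Pool.Agent.H55.CG.Targets

/-!
# The order of the gap of the slope of the copolymer critical curve: assembly (helper55)
-/

set_option autoImplicit false

open MeasureTheory ProbabilityTheory Filter Topology
open Pool.Agent.H95 Pool.Agent.H95.Cop

namespace Pool.Agent.H55.CG

/-- the numbers: the drift is at least `κ² / 2^81` -/
lemma delta_ge (κ c δ : ℝ) (q : ℕ) (hκ : 0 < κ) (hc : c = κ / 32 * (Real.exp (-18) / 4))
    (hc1 : c ≤ 1) (hq : q = ⌈32 / c ^ 2⌉₊) (hδ : δ = 1 / (640 * q)) :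
    κ ^ 2 / 2 ^ 81 ≤ δ := by
  have hc0 : 0 < c := by rw [hc]; positivity
  have h1 : (q : ℝ) ≤ 33 / c ^ 2 := by
    have h2 : (q : ℝ) < 32 / c ^ 2 + 1 := by
      rw [hq]; exact Nat.ceil_lt_add_one (by positivity)
    have h3 : 1 ≤ 1 / c ^ 2 := by
      rw [le_div_iff₀ (by positivity), one_mul]
      exact pow_le_one₀ hc0.le hc1
    have h4 : 33 / c ^ 2 = 32 / c ^ 2 + 1 / c ^ 2 := by ring
    linarith
  have hq0 : (0 : ℝ) < q := by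
    have : 0 < q := by rw [hq]; exact Nat.ceil_pos.mpr (by positivity)
    exact_mod_cast this
  have h5 : c ^ 2 / 21120 ≤ δ := by
    rw [hδ, div_le_div_iff₀ (by norm_num) (by positivity)]
    have : (q : ℝ) * c ^ 2 ≤ 33 := by rwa [le_div_iff₀ (by positivity)] at h1
    nlinarith
  refine le_trans ?_ h5
  have he : Real.exp 36 ≤ 2 ^ 52 := by
    have e1 : Real.exp 36 = Real.exp 1 ^ 36 := by rw [← Real.exp_nat_mul]; norm_num
    rw [e1]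
    have e2 := Real.exp_one_lt_d9
    calc Real.exp 1 ^ 36 ≤ (2.7182818286 : ℝ) ^ 36 :=
          pow_le_pow_left₀ (Real.exp_pos 1).le e2.le 36
      _ ≤ 2 ^ 52 := by norm_num
  have he2 : Real.exp (-18) ^ 2 = (Real.exp 36)⁻¹ := by
    rw [← Real.exp_nat_mul, ← Real.exp_neg]; norm_num
  have e3 : c ^ 2 / 21120 = κ ^ 2 * (Real.exp 36)⁻¹ / (128 ^ 2 * 21120) := by
    rw [hc, ← he2]; ring
  rw [e3, div_le_div_iff₀ (by positivity) (by positivity)]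
  have hκ2 : 0 < κ ^ 2 := by positivity
  have e4 : (Real.exp 36)⁻¹ * 2 ^ 81 ≥ 128 ^ 2 * 21120 := by
    have : (2 ^ 52 : ℝ)⁻¹ ≤ (Real.exp 36)⁻¹ := inv_anti₀ (Real.exp_pos _) he
    have h6 : (2 ^ 52 : ℝ)⁻¹ * 2 ^ 81 ≤ (Real.exp 36)⁻¹ * 2 ^ 81 := by gcongr
    refine le_trans ?_ h6
    norm_num
  calc κ ^ 2 * (128 ^ 2 * 21120) ≤ κ ^ 2 * ((Real.exp 36)⁻¹ * 2 ^ 81) := by gcongr
    _ = κ ^ 2 * (Real.exp 36)⁻¹ * 2 ^ 81 := by ring

/-- the choice of the pattern: `k` pairs, `m` cells, level `J` -/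
lemma choice (hPTM : T_PTM) (hSUM : T_SUM) (hPIG : T_PIG) (hSNU : T_SNU) (hKSE : T_KSE)
    (c b0 D C : ℝ) (q : ℕ) (hc0 : 0 < c) (hc1 : c ≤ 1) (hq : 32 / c ^ 2 ≤ q) (hb0 : 0 < b0)
    (hD : 1 ≤ D) (hC : 0 < C) :
    ∃ (k m J : ℕ), 1 ≤ m ∧ 1 ≤ J ∧ ∃ S : ℝ, 0 < S ∧
      S ≤ ∑ L ∈ PM q (8 ^ (q - 1)) k m, wL c L ∧
      16 * ((PM q (8 ^ (q - 1)) k m).card * D ^ (2 * m + 2 * k + 3)) ≤ 2 ^ J * (b0 * S) ^ 2 ∧
      C * ((m : ℝ) + 1) < b0 * S / (4 * J) ∧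
      ∀ L ∈ PM q (8 ^ (q - 1)) k m, okL q (8 ^ (q - 1)) L ∧ tot L = m ∧ L.length = k := by
  set R := 8 ^ (q - 1) with hR
  have hq0 : (0 : ℝ) < q := lt_of_lt_of_le (by positivity) hq
  have hq1 : 1 ≤ q := by
    have : 0 < q := by exact_mod_cast hq0
    omega
  have hR1 : 1 ≤ R := Nat.one_le_pow _ _ (by norm_num)
  obtain ⟨k, hk, hkJ⟩ := hKSE b0 D C (R * q) (R + 2 * q) hb0 hD hC
    (Nat.one_le_iff_ne_zero.mpr (by positivity)) (by omega)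
  have hsum : (2 : ℝ) ^ k ≤ ∑ L ∈ PT q R k, wL c L := by
    rw [hSUM q R k c]
    exact pow_le_pow_left₀ (by norm_num) (hSNU q c hc0 hc1 hq) k
  obtain ⟨m, hm, hmS⟩ := hPIG q R k c (2 ^ k) hq1 hc0 hsum
  obtain ⟨J, hJ1, hJ2, hJ3⟩ := hkJ m hm
  set S : ℝ := 2 ^ k / ((k * (R + 2 * q) + 1 : ℕ) : ℝ) with hS
  have hS0 : 0 < S := by positivity
  have hmem : ∀ L ∈ PM q R k m, okL q R L ∧ tot L = m ∧ L.length = k := by
    intro L hL
    rw [PM, Finset.mem_filter] at hL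
    have := (hPTM q R k L hq1).1.mp hL.1
    exact ⟨this.1, hL.2, this.2⟩
  have hm1 : 1 ≤ m := by
    have hne : (PM q R k m).Nonempty := by
      by_contra hcon
      rw [Finset.not_nonempty_iff_eq_empty] at hcon
      rw [hcon, Finset.sum_empty] at hmS
      linarith
    obtain ⟨L, hL⟩ := hne
    have hL' := hL
    rw [PM, Finset.mem_filter] at hL
    have := (hPTM q R k L hq1).2.2.2 hL.1 hk
    rw [hL.2] at this
    exact this
  refine ⟨k, m, J, hm1, hJ1, S, hS0, hmS, ?_, hJ3, hmem⟩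
  refine le_trans ?_ hJ2
  have hcard : ((PM q R k m).card : ℝ) ≤ ((R * q : ℕ) : ℝ) ^ k := by
    have h1 : (PM q R k m).card ≤ (R * q) ^ k :=
      (Finset.card_filter_le _ _).trans (hPTM q R k [] hq1).2.1
    exact_mod_cast h1
  gcongr

/-- the moments of the charges -/
lemma exp_map (μ : Measure ℝ) [IsProbabilityMeasure μ]
    (hexp : ∀ t : ℝ, Integrable (fun z => Real.exp (t * z)) μ) (lam h : ℝ) (t : ℝ) :
    Integrable (fun z => Real.exp (t * z)) (μ.map (fun z => -2 * lam * (z + h))) := by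
  rw [integrable_map_measure (by fun_prop) (by fun_prop)]
  have h1 := (hexp (t * (-2 * lam))).mul_const (Real.exp (t * (-2 * lam * h)))
  refine h1.congr (Filter.Eventually.of_forall fun z => ?_)
  simp only [Function.comp_apply]
  rw [← Real.exp_add]
  congr 1
  ring

/-- the fractional moments of the groups -/
lemma group_moments (hGRP : T_GRP) (hGR0 : T_GR0) (K : PMF ℕ) (ν : Measure ℝ)
    [IsProbabilityMeasure ν] (hν : ∀ t : ℝ, Integrable (fun z => Real.exp (t * z)) ν)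
    (γ : ℝ) (q ℓ : ℕ) (hγ0 : 0 < γ) (hγ1 : γ ≤ 1) (hq1 : 1 ≤ q) (hℓ : 1 ≤ ℓ)
    (h1 : Mo ν γ ≤ 1) (h2 : Mo ν (γ / 2) ≤ 1) (h3 : Mo ν (γ / 2) ^ ℓ ≤ 1 / 8 * Mo ν γ ^ ℓ)
    (h4 : Real.exp (-18) ≤ Mo ν (γ / 2) ^ ℓ) (h5 : 1 / 2 ≤ Mo ν γ ^ ((4 * q + 1) * ℓ)) :
    (open Classical in ∀ u, 2 * q ≤ u → u ≤ 8 ^ (q - 1) → Real.exp (-18) / 4 ≤
      ∫ x, (if Gd q ℓ false u x then gg K ℓ false u true x ^ γ else 0) ∂(iid ν)) ∧
    (open Classical in ∀ v, q ≤ v → v < 2 * q → Real.exp (-18) / 4 ≤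
      ∫ x, (if Gd q ℓ true v x then gg K ℓ true v false x ^ γ else 0) ∂(iid ν)) ∧
    Real.exp (-18) ≤ ∫ x, gg K ℓ false 1 false x ^ γ ∂(iid ν) := by
  have hM0 : 0 ≤ Mo ν γ := integral_nonneg fun z => (Real.exp_pos _).le
  have key : ∀ n : ℕ, n ≤ 4 * q + 1 →
      Real.exp (-18) / 4 ≤ 1 / 2 * (Mo ν γ ^ (n * ℓ) * Mo ν (γ / 2) ^ ℓ) := by
    intro n hn
    have e1 : 1 / 2 ≤ Mo ν γ ^ (n * ℓ) :=
      h5.trans (pow_le_pow_of_le_one hM0 h1 (Nat.mul_le_mul_right ℓ hn))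
    have e2 : 1 / 2 * Real.exp (-18) ≤ Mo ν γ ^ (n * ℓ) * Mo ν (γ / 2) ^ ℓ :=
      mul_le_mul e1 h4 (Real.exp_pos _).le (by positivity)
    linarith
  refine ⟨?_, ?_, ?_⟩
  · intro u hu1 hu2
    refine (key 1 (by omega)).trans ?_
    have := hGRP K ν hν γ q ℓ false true u hγ0 hγ1 hq1 hℓ (by omega) (fun _ => hu2) h1 h2 h3
    simpa using this
  · intro v hv1 hv2
    refine (key (2 * v + 1) (by omega)).trans ?_
    have := hGRP K ν hν γ q ℓ true false v hγ0 hγ1 hq1 hℓ (by omega) (by simp) h1 h2 h3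
    simpa using this
  · exact h4.trans (hGR0 K ν hν γ ℓ hγ0 hγ1 hℓ h2)

/-- the level of the block functional -/
lemma level (hYXB : T_YXB) (hYPW : T_YPW) (hGRP : T_GRP) (hGR0 : T_GR0) (hPRD : T_PRD)
    (hYLO : T_YLO) (hYUP : T_YUP) (hLVL : T_LVL) (hMSL : T_MSL) (hGGS : T_GGS)
    (K : PMF ℕ) (ν : Measure ℝ)
    [IsProbabilityMeasure ν] (hν : ∀ t : ℝ, Integrable (fun z => Real.exp (t * z)) ν)
    (α γ κ a b C : ℝ) (q ℓ k m J : ℕ) (S : ℝ) (hα : 0 < α) (hα1 : α < 1) (hγ : γ = 1 / (1 + α))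
    (hκ : κ = α * (1 - α)) (ha : a = κ / 32) (hb : b = Real.exp (-18) / 4)
    (hq1 : 1 ≤ q) (hℓ : 1 ≤ ℓ) (hm1 : 1 ≤ m) (hJ1 : 1 ≤ J) (hS0 : 0 < S)
    (h1 : Mo ν γ ≤ 1) (h2 : Mo ν (γ / 2) ≤ 1) (h3 : Mo ν (γ / 2) ^ ℓ ≤ 1 / 8 * Mo ν γ ^ ℓ)
    (h4 : Real.exp (-18) ≤ Mo ν (γ / 2) ^ ℓ) (h5 : 1 / 2 ≤ Mo ν γ ^ ((4 * q + 1) * ℓ))
    (h6 : Mo ν (2 * γ) ^ ℓ ≤ Real.exp 140)
    (hKV : ∀ n j : ℕ, 1 ≤ n → (2 * n - 1) * ℓ ≤ j → j ≤ (2 * n + 1) * ℓ →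
      a * (2 * (n : ℝ) + 1) ^ (-(1 + α)) ≤ kk K j / 2 * VV K ℓ)
    (hP : ∀ L ∈ PM q (8 ^ (q - 1)) k m, okL q (8 ^ (q - 1)) L ∧ tot L = m ∧ L.length = k)
    (hSs : S ≤ ∑ L ∈ PM q (8 ^ (q - 1)) k m, wL (a * b) L)
    (hJ2 : 16 * ((PM q (8 ^ (q - 1)) k m).card * Real.exp 140 ^ (2 * m + 2 * k + 3)) ≤
      2 ^ J * (Real.exp (-18) * S) ^ 2)
    (hJ3 : C * ((m : ℝ) + 1) < Real.exp (-18) * S / (4 * J)) :
    ∃ s : ℝ, 0 < s ∧ C * ((m : ℝ) + 1) <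
      s * (iid ν).real {x | VV K ℓ * s ^ (1 + α) ≤ XB K ℓ m x} := by
  classical
  set R := 8 ^ (q - 1) with hR
  set P := PM q R k m with hPdef
  have hα' : 0 < 1 + α := by linarith
  have hγ0 : 0 < γ := by rw [hγ]; positivity
  have hγ1 : γ ≤ 1 := by rw [hγ, div_le_one hα']; linarith
  have hγ2 : 1 / 2 ≤ γ := by rw [hγ]; exact one_div_le_one_div_of_le hα' (by linarith)
  have hκ0 : 0 < κ := by rw [hκ]; exact mul_pos hα (by linarith)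
  have hκ1 : κ ≤ 1 / 4 := by rw [hκ]; nlinarith [sq_nonneg (α - 1 / 2)]
  have ha0 : 0 < a := by rw [ha]; positivity
  have ha1 : a ≤ 1 := by rw [ha]; linarith
  have hb0 : 0 < b := by rw [hb]; positivity
  obtain ⟨g1, g2, g3⟩ := group_moments hGRP hGR0 K ν hν γ q ℓ hγ0 hγ1 hq1 hℓ h1 h2 h3 h4 h5
  have hprd := hPRD K ν hν γ b (Real.exp (-18)) q R ℓ hγ0 hq1 hℓ hb0.le (Real.exp_pos _).le
    (fun u hu1 hu2 => by rw [hb]; exact g1 u hu1 hu2)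
    (fun v hv1 hv2 => by rw [hb]; exact g2 v hv1 hv2) g3
  have hP' : ∀ L ∈ P, okL q R L ∧ tot L = m := fun L hL => ⟨(hP L hL).1, (hP L hL).2.1⟩
  obtain ⟨y1, y2⟩ := hYLO K ν hν α a b (Real.exp (-18)) q R ℓ m P hα ha0 ha1 hb0
    (Real.exp_pos _).le hq1 hℓ hP' (fun L hL => by rw [← hγ]; exact hprd L hL)
  rw [← hγ] at y1 y2
  have hD1 : (1 : ℝ) ≤ Real.exp 140 := Real.one_le_exp (by norm_num)
  obtain ⟨y3, y4⟩ := hYUP K ν hν α a (2 * γ) (Real.exp 140) q R ℓ m k P hα ha0 ha1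
    (by linarith) hD1 hq1 hℓ h6 (by rw [mul_div_cancel_left₀ γ (by norm_num : (2:ℝ) ≠ 0)]; exact h1) hP
  have hY0 : ∀ x, 0 ≤ YY K α a q ℓ P x := fun x =>
    (hYPW K α a q R ℓ P m hq1 ha0.le hℓ hP' x 1 one_pos).1
  have hYm : Measurable (fun x => YY K α a q ℓ P x) := by
    unfold YY
    refine Finset.measurable_sum _ fun L _ => ?_
    obtain ⟨_, _, _, _, m5, m6, _⟩ := hMSL K ℓ q m L
    exact Measurable.ite m6 (m5.const_mul _) measurable_const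
  have hsq : ∀ x, (YY K α a q ℓ P x ^ γ) ^ 2 = YY K α a q ℓ P x ^ (2 * γ) := by
    intro x
    rw [← Real.rpow_natCast, ← Real.rpow_mul (hY0 x)]
    congr 1
    push_cast
    ring
  have hE0 : 0 < Real.exp (-18) * S := by positivity
  have hlow : Real.exp (-18) * S ≤ ∫ x, YY K α a q ℓ P x ^ γ ∂(iid ν) := by
    refine le_trans ?_ y2
    exact mul_le_mul_of_nonneg_left hSs (Real.exp_pos _).le
  obtain ⟨s, hs0, hs⟩ := hLVL (iid ν) (fun x => YY K α a q ℓ P x ^ γ)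
    (hYm.pow_const _) (fun x => Real.rpow_nonneg (hY0 x) _) y1
    (by simp_rw [hsq]; exact y3) (Real.exp (-18) * S)
    ((P.card : ℝ) * Real.exp 140 ^ (2 * m + 2 * k + 3)) J hE0 hlow
    (by simp_rw [hsq]; exact y4) hJ1 hJ2
  refine ⟨s, hs0, hJ3.trans_le (hs.trans ?_)⟩
  refine mul_le_mul_of_nonneg_left ?_ hs0.le
  refine measureReal_mono ?_
  intro x hx
  simp only [Set.mem_ofPred_eq] at hx ⊢
  have hV := (hGGS K ℓ hℓ).1
  refine le_trans ?_ (hYXB K ℓ α a hℓ ha0.le hKV q R m P hq1 hm1 hP' x)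
  refine mul_le_mul_of_nonneg_left ?_ hV.le
  have e1 : (YY K α a q ℓ P x ^ γ) ^ (1 + α) = YY K α a q ℓ P x := by
    rw [← Real.rpow_mul (hY0 x), hγ, one_div_mul_cancel hα'.ne', Real.rpow_one]
  rw [← e1]
  exact Real.rpow_le_rpow hs0.le hx hα'.le

/-- the lower bound of the products `kk VV` -/
lemma kk_VV (K : PMF ℕ) (α κ cK a : ℝ) (n0 ℓ : ℕ) (hα : 0 < α) (hκ : 0 < κ) (hcK : 0 < cK)
    (ha : a = κ / 32)
    (hk : ∀ n : ℕ, n0 ≤ n → cK / 2 * (n : ℝ) ^ (-(1 + α)) ≤ kk K n) (hℓ : 1 ≤ ℓ) (hn : n0 ≤ ℓ)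
    (hV : κ / (8 * cK) * (ℓ : ℝ) ^ (1 + α) ≤ VV K ℓ) :
    ∀ n j : ℕ, 1 ≤ n → (2 * n - 1) * ℓ ≤ j → j ≤ (2 * n + 1) * ℓ →
      a * (2 * (n : ℝ) + 1) ^ (-(1 + α)) ≤ kk K j / 2 * VV K ℓ := by
  intro n j hn1 hj1 hj2
  have hℓ0 : (0 : ℝ) < ℓ := by exact_mod_cast hℓ
  have hjℓ : ℓ ≤ j := by
    refine le_trans ?_ hj1
    have : 1 ≤ 2 * n - 1 := by omega
    nlinarith
  have hj0 : (0 : ℝ) < j := lt_of_lt_of_le hℓ0 (by exact_mod_cast hjℓ)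
  have h1 := hk j (hn.trans hjℓ)
  have h2 : ((2 * (n : ℝ) + 1) * ℓ) ^ (-(1 + α)) ≤ (j : ℝ) ^ (-(1 + α)) := by
    apply Real.rpow_le_rpow_of_nonpos hj0
    · exact_mod_cast hj2
    · linarith
  have h3 : cK / 2 * ((2 * (n : ℝ) + 1) * ℓ) ^ (-(1 + α)) ≤ kk K j :=
    le_trans (mul_le_mul_of_nonneg_left h2 (by positivity)) h1
  rw [Real.mul_rpow (by positivity) hℓ0.le] at h3
  have h4 : (ℓ : ℝ) ^ (-(1 + α)) * (ℓ : ℝ) ^ (1 + α) = 1 := by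
    rw [← Real.rpow_add hℓ0]; simp
  have hp1 : 0 ≤ (2 * (n : ℝ) + 1) ^ (-(1 + α)) := by positivity
  have hp2 : 0 ≤ (ℓ : ℝ) ^ (-(1 + α)) := by positivity
  calc a * (2 * (n : ℝ) + 1) ^ (-(1 + α))
      = (cK / 2 * ((2 * (n : ℝ) + 1) ^ (-(1 + α)) * (ℓ : ℝ) ^ (-(1 + α)))) / 2 *
        (κ / (8 * cK) * (ℓ : ℝ) ^ (1 + α)) := by
        have : (cK / 2 * ((2 * (n : ℝ) + 1) ^ (-(1 + α)) * (ℓ : ℝ) ^ (-(1 + α)))) / 2 *
            (κ / (8 * cK) * (ℓ : ℝ) ^ (1 + α)) = (κ / 32) * (2 * (n : ℝ) + 1) ^ (-(1 + α)) *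
            ((ℓ : ℝ) ^ (-(1 + α)) * (ℓ : ℝ) ^ (1 + α)) := by
          field_simp; ring
        rw [this, h4, ha, mul_one]
    _ ≤ kk K j / 2 * VV K ℓ := by
        apply mul_le_mul _ hV (by positivity) (div_nonneg (kk_nonneg K j) (by norm_num))
        linarith

/-- the condition of the rare stretch lemma -/
lemma cond (α κ cK s p V : ℝ) (ℓ m : ℕ) (hα : 0 < α) (hκ : 0 < κ) (hκ1 : κ ≤ 1 / 4)
    (hcK : 0 < cK) (hs : 0 < s) (hp : 0 < p) (hℓ : 1 ≤ ℓ) (hm1 : 1 ≤ m)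
    (hV : κ / (8 * cK) * (ℓ : ℝ) ^ (1 + α) ≤ V) (hsp : 64 / κ * ((m : ℝ) + 1) < s * p) :
    0 < Real.log (V * s ^ (1 + α)) + Real.log (cK / 2 / 2) -
      (1 + α) * Real.log (((2 * m + 2) * ℓ : ℕ) : ℝ) - (1 + α) * Real.log (1 / p) := by
  have hα' : 0 < 1 + α := by linarith
  have hℓ0 : (0 : ℝ) < ℓ := by exact_mod_cast hℓ
  have hm0 : (0 : ℝ) < (m : ℝ) + 1 := by positivity
  have hV0 : 0 < κ / (8 * cK) * (ℓ : ℝ) ^ (1 + α) := by positivity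
  have l1 : Real.log (κ / (8 * cK)) + (1 + α) * Real.log ℓ ≤ Real.log V := by
    rw [← Real.log_rpow hℓ0, ← Real.log_mul (by positivity) (by positivity)]
    exact Real.log_le_log hV0 hV
  have l2 : Real.log (V * s ^ (1 + α)) = Real.log V + (1 + α) * Real.log s := by
    rw [Real.log_mul (by linarith) (by positivity), Real.log_rpow hs]
  have l3 : Real.log (((2 * m + 2) * ℓ : ℕ) : ℝ) = Real.log 2 + Real.log ((m : ℝ) + 1) +
      Real.log ℓ := by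
    rw [← Real.log_mul (by norm_num) hm0.ne', ← Real.log_mul (by positivity) hℓ0.ne']
    congr 1
    push_cast
    ring
  have l4 : Real.log (1 / p) = - Real.log p := by rw [one_div, Real.log_inv]
  have l5 : Real.log (κ / (8 * cK)) + Real.log (cK / 2 / 2) = - Real.log (32 / κ) := by
    rw [← Real.log_mul (by positivity) (by positivity), ← Real.log_inv]
    congr 1
    field_simp
    ring
  have l6 : Real.log (64 / κ) + Real.log ((m : ℝ) + 1) < Real.log s + Real.log p := by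
    rw [← Real.log_mul (by positivity) hm0.ne', ← Real.log_mul hs.ne' hp.ne']
    exact Real.log_lt_log (by positivity) hsp
  have l7 : Real.log (64 / κ) = Real.log 2 + Real.log (32 / κ) := by
    rw [← Real.log_mul (by norm_num) (by positivity)]
    congr 1
    ring
  have l8 : 0 ≤ Real.log (32 / κ) := by
    apply Real.log_nonneg
    rw [le_div_iff₀ hκ]
    linarith
  rw [l2, l3, l4]
  have l9 : (1 + α) * (Real.log 2 + Real.log (32 / κ) + Real.log ((m : ℝ) + 1)) <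
      (1 + α) * (Real.log s + Real.log p) := by
    apply mul_lt_mul_of_pos_left _ hα'
    linarith
  nlinarith [mul_nonneg hα.le l8]

theorem pf_FIN (hMAP : T_MAP) (hRSL : T_RSL) (hYXB : T_YXB) (hYPW : T_YPW) (hGRP : T_GRP)
    (hGR0 : T_GR0) (hPRD : T_PRD) (hYLO : T_YLO) (hYUP : T_YUP) (hLVL : T_LVL) (hMSL : T_MSL)
    (hGGS : T_GGS) (hPTM : T_PTM) (hSUM : T_SUM) (hPIG : T_PIG) (hSNU : T_SNU) (hKSE : T_KSE)
    (hKLO : T_KLO) (hVVL : T_VVL) (hMOM : T_MOM)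
    (α : ℝ) (hα : 0 < α) (hα1 : α < 1)
    (K : PMF ℕ) (hK0 : K 0 = 0) (cK : ℝ) (hcK : 0 < cK)
    (hK : Tendsto (fun n : ℕ => (K n).toReal * (n : ℝ) ^ (1 + α)) atTop (𝓝 cK))
    (μ : Measure ℝ) [IsProbabilityMeasure μ]
    (hexp : ∀ t : ℝ, Integrable (fun z => Real.exp (t * z)) μ)
    (hmean : ∫ z, z ∂μ = 0) (hvar : ∫ z, z ^ 2 ∂μ = 1) :
    ∀ᶠ lam in 𝓝[>] (0 : ℝ),
      1 / (1 + α) + α ^ 2 * (1 - α) ^ 2 / 2 ^ 81 ≤ criticalCurve K μ lam / lam := by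
  have hα' : 0 < 1 + α := by linarith
  set γ : ℝ := 1 / (1 + α) with hγ
  set κ : ℝ := α * (1 - α) with hκ
  set a : ℝ := κ / 32 with ha
  set b : ℝ := Real.exp (-18) / 4 with hb
  set q : ℕ := ⌈32 / (a * b) ^ 2⌉₊ with hq
  set δ : ℝ := 1 / (640 * q) with hδ
  have hγ0 : 0 < γ := by rw [hγ]; positivity
  have hγ1 : γ ≤ 1 := by rw [hγ, div_le_one hα']; linarith
  have hγ2 : 1 / 2 ≤ γ := by rw [hγ]; exact one_div_le_one_div_of_le hα' (by linarith)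
  have hκ0 : 0 < κ := mul_pos hα (by linarith)
  have hκ1 : κ ≤ 1 / 4 := by rw [hκ]; nlinarith [sq_nonneg (α - 1 / 2)]
  have ha0 : 0 < a := by positivity
  have ha1 : a ≤ 1 := by rw [ha]; linarith
  have hb0 : 0 < b := by positivity
  have hb1 : b ≤ 1 := by
    have : Real.exp (-18) ≤ 1 := Real.exp_le_one_iff.mpr (by norm_num)
    rw [hb]; linarith
  have hab0 : 0 < a * b := by positivity
  have hab1 : a * b ≤ 1 := mul_le_one₀ ha1 hb0.le hb1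
  have hq1 : 1 ≤ q := Nat.ceil_pos.mpr (by positivity)
  have hq0 : (0 : ℝ) < q := by exact_mod_cast hq1
  have hδ0 : 0 < δ := by positivity
  have hδge : κ ^ 2 / 2 ^ 81 ≤ δ := delta_ge κ (a * b) δ q hκ0 rfl hab1 rfl rfl
  have hqδ : 640 * q * δ ≤ 1 := by rw [hδ]; field_simp; exact le_rfl
  obtain ⟨k, m, J, hm1, hJ1, S, hS0, hSs, hJ2, hJ3, hP⟩ := choice hPTM hSUM hPIG hSNU hKSE
    (a * b) (Real.exp (-18)) (Real.exp 140) (64 / κ) q hab0 hab1 (Nat.le_ceil _)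
    (Real.exp_pos _) (Real.one_le_exp (by norm_num)) (by positivity)
  obtain ⟨n0, hn0⟩ := eventually_atTop.mp (hKLO α hα K cK hcK hK)
  obtain ⟨n1, hn1⟩ := eventually_atTop.mp (hVVL α hα hα1 K hK0 cK hcK hK)
  have hmom := hMOM μ hexp hmean hvar γ δ q hγ2 hγ1 hδ0 hq1 hqδ
  have hlarge : ∀ᶠ lam in 𝓝[>] (0 : ℝ), n0 + n1 + 1 ≤ ⌈32 / lam ^ 2⌉₊ := by
    have h1 : Tendsto (fun lam : ℝ => 32 / lam ^ 2) (𝓝[>] (0 : ℝ)) atTop := by
      have h2 : Tendsto (fun lam : ℝ => lam ^ 2) (𝓝[>] (0 : ℝ)) (𝓝[>] (0 : ℝ)) := by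
        rw [tendsto_nhdsWithin_iff]
        refine ⟨?_, ?_⟩
        · have : Tendsto (fun lam : ℝ => lam ^ 2) (𝓝 (0 : ℝ)) (𝓝 (0 ^ 2)) :=
            (continuous_pow 2).tendsto 0
          rw [zero_pow two_ne_zero] at this
          exact this.mono_left nhdsWithin_le_nhds
        · filter_upwards [self_mem_nhdsWithin] with lam hlam
          have hlam1 : 0 < lam := hlam
          exact pow_pos hlam1 2
      simp_rw [div_eq_mul_inv]
      exact (tendsto_inv_nhdsGT_zero.comp h2).const_mul_atTop (by norm_num)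
    have h3 := tendsto_nat_ceil_atTop.comp h1
    exact h3.eventually (eventually_ge_atTop _)
  filter_upwards [hmom, hlarge, self_mem_nhdsWithin] with lam hmo hla hpos
  have hlam0 : 0 < lam := hpos
  set ℓ : ℕ := ⌈32 / lam ^ 2⌉₊ with hℓdef
  have hℓ1 : 1 ≤ ℓ := by omega
  set h : ℝ := (γ + δ) * lam with hh
  have hh0 : 0 ≤ h := by positivity
  set ν : Measure ℝ := μ.map (fun z => -2 * lam * (z + h)) with hν
  have hfm : Measurable (fun z : ℝ => -2 * lam * (z + h)) := by fun_prop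
  have : IsProbabilityMeasure ν := Measure.isProbabilityMeasure_map hfm.aemeasurable
  have hνexp : ∀ t : ℝ, Integrable (fun z => Real.exp (t * z)) ν := exp_map μ hexp lam h
  obtain ⟨h1, h2, h3, h4, h5, h6⟩ := hmo ν rfl ℓ rfl
  have hV := hn1 ℓ (by omega)
  have hKV := kk_VV K α κ cK a n0 ℓ hα hκ0 hcK rfl hn0 hℓ1 (by omega) hV
  obtain ⟨s, hs0, hs⟩ := level hYXB hYPW hGRP hGR0 hPRD hYLO hYUP hLVL hMSL hGGS K ν hνexp α γ κ a b
    (64 / κ) q ℓ k m J S hα hα1 rfl rfl rfl rfl hq1 hℓ1 hm1 hJ1 hS0 h1 h2 h3 h4 h5 h6 hKV hP hSs hJ2 hJ3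
  have hV0 : 0 < VV K ℓ := (hGGS K ℓ hℓ1).1
  set g : ℝ := Real.log (VV K ℓ * s ^ (1 + α)) with hg
  have hexpg : Real.exp g = VV K ℓ * s ^ (1 + α) := Real.exp_log (by positivity)
  have hXm : Measurable (fun x : ℕ → ℝ => XB K ℓ m x) := (hMSL K ℓ q m []).2.2.2.2.2.2
  set p : ℝ := (iid μ).real {ω | Real.exp g ≤ XB K ℓ m (ch lam h ω)} with hp
  have hpp : (iid ν).real {x | VV K ℓ * s ^ (1 + α) ≤ XB K ℓ m x} = p := by
    have hmap := hMAP μ (fun z : ℝ => -2 * lam * (z + h)) hfm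
    rw [hν, ← hmap, map_measureReal_apply]
    · rw [hp, hexpg]
      rfl
    · exact measurable_pi_lambda _ fun i => hfm.comp (measurable_pi_apply i)
    · exact measurableSet_le measurable_const hXm
  rw [hpp] at hs
  have hp0 : 0 < p := by
    by_contra hcon
    push Not at hcon
    have : s * p ≤ 0 := mul_nonpos_of_nonneg_of_nonpos hs0.le hcon
    have h7 : 0 < 64 / κ * ((m : ℝ) + 1) := by positivity
    linarith
  obtain ⟨f, hf0, hf⟩ := hRSL α hα K hK0 cK hcK hK μ hexp (cK / 2) n0 (by positivity) hn0 ℓ m hℓ1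
    (by omega) hm1 lam h g p rfl hp0
    (cond α κ cK s p (VV K ℓ) ℓ m hα hκ0 hκ1 hcK hs0 hp0 hℓ1 hm1 hV hs)
  have hsup : h ≤ criticalCurve K μ lam :=
    le_csSup (localized_bddAbove μ K hexp lam hlam0) ⟨hh0, f, hf0, hf⟩
  rw [le_div_iff₀ hlam0]
  refine le_trans ?_ hsup
  rw [hh]
  refine mul_le_mul_of_nonneg_right ?_ hlam0.le
  have : α ^ 2 * (1 - α) ^ 2 / 2 ^ 81 = κ ^ 2 / 2 ^ 81 := by rw [hκ]; ring
  rw [this]
  linarith

end Pool.Agent.H55.CG
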